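import Pool.Agent.Helper6.NX.GoalsB

/-!
# NX, packet VP: properties of the restricted entropies
-/

namespace Pool.Agent.Helper59.NX

open Equiv Pool.Agent.Helper6.NX

theorem res_eq_iff {n : ℕ} (D : Finset (Fin n)) (h h' : Perm (Fin n)) :
    res D h = res D h' ↔ ∀ x ∈ D, h x = h' x := by
  constructor
  · intro e x hx
    have := congrFun e x
    unfold res at this
    rw [if_pos hx, if_pos hx] at this
    exact Option.some.inj this
  · intro e
    funext x
    unfold res
    by_cases hx : x ∈ D
    · rw [if_pos hx, if_pos hx, e x hx]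
    · rw [if_neg hx, if_neg hx]

theorem ini_succ {n k : ℕ} (hk : k < n) : ini n (k + 1) = insert ⟨k, hk⟩ (ini n k) := by
  ext i
  unfold ini
  simp only [Finset.mem_filter, Finset.mem_univ, true_and, Finset.mem_insert, Fin.ext_iff]
  omega

theorem ini_univ {n k : ℕ} (hk : n ≤ k) : ini n k = Finset.univ := by
  ext i
  unfold ini
  simp only [Finset.mem_filter, Finset.mem_univ, true_and, iff_true]
  omega

theorem im_univ {n : ℕ} (π : Perm (Fin n)) : im π Finset.univ = Finset.univ := by
  unfold im
  exact Finset.image_univ_of_surjective π.surjective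

theorem avg_const {n : ℕ} (c : ℝ) :
    (n.factorial : ℝ)⁻¹ * ∑ _π : Perm (Fin n), c = c := by
  rw [Finset.sum_const, Finset.card_univ, Fintype.card_perm, Fintype.card_fin, nsmul_eq_mul,
    ← mul_assoc, inv_mul_cancel₀ (by exact_mod_cast n.factorial_ne_zero), one_mul]

theorem thmVP (hl2 : S_L2) (hl3c : S_L3C) (hl4 : S_L4) (havg : S_AVG) : S_VP := by
  intro n ν hn hν
  have hL : 0 < Real.log n := Real.log_pos (by exact_mod_cast (by omega : 1 < n))
  have hent : ∀ {α β : Type} (X : Perm (Fin n) → α) (Y : Perm (Fin n) → β),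
      (∀ ω ω', X ω = X ω' ↔ Y ω = Y ω') → ent ν X = ent ν Y := by
    intro α β X Y h
    exact le_antisymm
      (hl2 _ _ _ ν Y X hν fun ω ω' _ _ e => (h ω ω').2 e)
      (hl2 _ _ _ ν X Y hν fun ω ω' _ _ e => (h ω ω').1 e)
  have c1 : ∀ p D, FF ν p D = cent ν (fun h => h p) (res D) / Real.log n := by
    intro p D
    unfold FF cent HD
    congr 2
    refine hent _ _ fun ω ω' => ?_
    rw [res_eq_iff, Prod.mk.injEq, res_eq_iff, Finset.forall_mem_insert]
  have c2 : ∀ p D, 0 ≤ FF ν p D ∧ FF ν p D ≤ 1 := by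
    intro p D
    constructor
    · unfold FF
      refine div_nonneg (sub_nonneg.2 ?_) hL.le
      unfold HD
      refine hl2 _ _ _ ν _ _ hν fun ω ω' _ _ e => ?_
      rw [res_eq_iff] at e ⊢
      exact fun x hx => e x (Finset.mem_insert_of_mem hx)
    · rw [c1, div_le_one hL]
      have h := (hl3c _ _ _ ν (fun h => h p) (res D) hν).1 (fun _ => Finset.univ)
        (fun _ _ => Finset.mem_univ _)
      refine h.trans (le_of_eq ?_)
      rw [← Finset.sum_mul, hν.2, one_mul, Finset.card_univ, Fintype.card_fin]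
  have c3 : ∀ p D D', D ⊆ D' → FF ν p D' ≤ FF ν p D := by
    intro p D D' hD
    rw [c1, c1]
    refine div_le_div_of_nonneg_right ?_ hL.le
    have h := (hl4 _ _ _ _ ν (fun h => h p) (res D') (res D) hν).1
    refine le_trans (le_of_eq ?_) h
    unfold cent
    have e1 : ∀ ω ω' : Perm (Fin n), res D' ω = res D' ω' ↔
        (res D' ω, res D ω) = (res D' ω', res D ω') := by
      intro ω ω'
      rw [Prod.mk.injEq]
      refine ⟨fun e => ⟨e, ?_⟩, fun e => e.1⟩
      rw [res_eq_iff] at e ⊢
      exact fun x hx => e x (hD hx)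
    rw [hent _ _ e1]
    congr 1
    refine hent _ _ fun ω ω' => ?_
    rw [Prod.mk.injEq, Prod.mk.injEq, e1 ω ω']
  have c4 : ∀ k, VV ν k = avF (FF ν) k := by
    intro k
    unfold VV avF
    by_cases hk : k < n
    · rw [dif_pos hk]
      unfold AA
      rw [← mul_sub, ← Finset.sum_sub_distrib, mul_div_assoc, Finset.sum_div]
      congr 1
      refine Finset.sum_congr rfl fun π _ => ?_
      unfold FF
      rw [ini_succ hk]
      unfold im
      rw [Finset.image_insert]
    · rw [dif_neg hk]
      unfold AA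
      rw [ini_univ (by omega : n ≤ k + 1), ini_univ (by omega : n ≤ k), sub_self, zero_div]
  have hfac : (0 : ℝ) ≤ (n.factorial : ℝ)⁻¹ := by positivity
  have c50 : ∀ k, 0 ≤ VV ν k := by
    intro k
    rw [c4]
    unfold avF
    split_ifs with hk
    · exact mul_nonneg hfac (Finset.sum_nonneg fun π _ => (c2 _ _).1)
    · exact le_rfl
  have c5 : ∀ k, 0 ≤ VV ν k ∧ VV ν k ≤ 1 ∧ VV ν (k + 1) ≤ VV ν k := by
    intro k
    refine ⟨c50 k, ?_, ?_⟩
    · rw [c4]
      unfold avF
      split_ifs with hk
      · calc _ ≤ (n.factorial : ℝ)⁻¹ * ∑ _π : Perm (Fin n), (1 : ℝ) :=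
            mul_le_mul_of_nonneg_left (Finset.sum_le_sum fun π _ => (c2 _ _).2) hfac
          _ = 1 := avg_const 1
      · exact zero_le_one
    · by_cases hk : k + 1 < n
      · have hk' : k < n := by omega
        rw [c4, c4]
        unfold avF
        rw [dif_pos hk, dif_pos hk']
        refine mul_le_mul_of_nonneg_left ?_ hfac
        have hA := (havg n k).1 hk' (FF ν) ⟨k + 1, hk⟩ (ini n k)
          (by unfold ini; simp) ((havg n k).2.2 hk'.le)
        rw [← hA]
        refine Finset.sum_le_sum fun π _ => c3 _ _ _ ?_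
        unfold im
        refine Finset.image_subset_image ?_
        rw [ini_succ hk']
        exact Finset.subset_insert _ _
      · have e : VV ν (k + 1) = 0 := by
          rw [c4]
          unfold avF
          rw [dif_neg hk]
        rw [e]
        exact c50 k
  have h0 : AA ν 0 = 0 := by
    unfold AA
    have e : ini n 0 = ∅ := by
      unfold ini
      simp
    rw [e]
    have e2 : ∀ π : Perm (Fin n), HD ν (im π ∅) = 0 := by
      intro π
      unfold im HD
      rw [Finset.image_empty, ← (hl3c _ _ _ ν (fun h => h) (fun h => h) hν).2.2.1]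
      refine hent _ _ fun ω ω' => ?_
      rw [res_eq_iff]
      simp
    simp [e2]
  have c6 : AA ν 0 = 0 ∧ ∀ k, n ≤ k → AA ν k = H ν ∧ VV ν k = 0 := by
    refine ⟨h0, fun k hk => ⟨?_, ?_⟩⟩
    · unfold AA
      rw [ini_univ hk]
      have e : ∀ π : Perm (Fin n), HD ν (im π Finset.univ) = H ν := by
        intro π
        rw [im_univ]
        unfold HD H
        refine hent _ _ fun ω ω' => ?_
        rw [res_eq_iff]
        refine ⟨fun e => Equiv.ext fun x => e x (Finset.mem_univ x), fun e x _ => by rw [e]⟩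
      rw [Finset.sum_congr rfl fun π _ => e π]
      exact avg_const _
    · rw [c4]
      unfold avF
      rw [dif_neg (by omega)]
  refine ⟨c1, c2, c3, c4, c5, c6, ?_⟩
  intro k
  have e : ∀ i, Real.log n * VV ν i = AA ν (i + 1) - AA ν i := by
    intro i
    unfold VV
    rw [mul_div_cancel₀ _ hL.ne']
  rw [Finset.mul_sum, Finset.sum_congr rfl fun i _ => e i, Finset.sum_range_sub, h0, sub_zero]

end Pool.Agent.Helper59.NX
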